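import Pool.Agent.helper65.SV.SpecE

/-!
# Project sv: (MP_b5a345_ag), module PCA (helper77)
-/

set_option autoImplicit false
set_option linter.unusedSectionVars false

namespace Pool.Agent.SV

open Module

theorem PCA (hPNB : PNB_stmt) : PCA_stmt := by
  classical
  intro K _ _ n S M hM
  obtain ⟨-, hnb, -, -⟩ := hPNB K n
  obtain ⟨k, hk⟩ : ∃ k : ℕ, ∀ c γ, |M c γ| ≤ k := by
    refine ⟨∑ c, ∑ γ, (M c γ).natAbs, fun c γ => ?_⟩
    have h1 : (M c γ).natAbs ≤ ∑ c, ∑ γ, (M c γ).natAbs :=
      (Finset.single_le_sum (f := fun γ => (M c γ).natAbs) (fun _ _ => Nat.zero_le _)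
        (Finset.mem_univ γ)).trans
      (Finset.single_le_sum (f := fun c => ∑ γ, (M c γ).natAbs) (fun _ _ => Nat.zero_le _)
        (Finset.mem_univ c))
    rw [Int.abs_eq_natAbs]
    exact_mod_cast h1
  obtain ⟨M', hM'⟩ : ∃ M' : Cell n × Cell n → ℕ, ∀ p,
      (M' p : ℤ) = M p.1 p.2 + if p.2 ∈ S then (k : ℤ) else 0 := by
    refine ⟨fun p => if p.2 ∈ S then (M p.1 p.2 + k).toNat else 0, fun p => ?_⟩
    by_cases hp : p.2 ∈ S
    · simp only [hp, if_true]
      have := abs_le.1 (hk p.1 p.2)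
      rw [Int.toNat_of_nonneg (by linarith [this.1])]
    · simp only [hp, if_false]
      rw [hM _ _ hp]
      simp
  have hpos : ∀ p, M' p ≠ 0 → p.2 ∈ S := by
    intro p hp
    by_contra h
    have h1 := hM' p
    rw [if_neg h, hM _ _ h] at h1
    apply hp
    exact_mod_cast h1
  obtain ⟨s, hs⟩ : ∃ s : ℕ, ∑ γ : Cell n, (if γ ∈ S then (k : ℤ) else 0) = s := by
    refine ⟨∑ γ : Cell n, (if γ ∈ S then k else 0), ?_⟩
    push_cast
    rfl
  obtain ⟨e, he⟩ : ∃ e : Fin (Fintype.card (Σ p : Cell n × Cell n, Fin (M' p))) ≃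
      (Σ p : Cell n × Cell n, Fin (M' p)), e = (Fintype.equivFin _).symm := ⟨_, rfl⟩
  obtain ⟨r, hr⟩ : ∃ r, r = Fintype.card (Σ p : Cell n × Cell n, Fin (M' p)) := ⟨_, rfl⟩
  have hsum : ∀ f : Cell n × Cell n → ℤ,
      ∑ l, f (e l).1 = ∑ c, ∑ γ, (M c γ + if γ ∈ S then (k : ℤ) else 0) * f (c, γ) := by
    intro f
    rw [Equiv.sum_comp e (fun s => f s.1), Fintype.sum_sigma, Fintype.sum_prod_type]
    refine Finset.sum_congr rfl fun c _ => Finset.sum_congr rfl fun γ _ => ?_
    change ∑ y : Fin (M' (c, γ)), f (c, γ) = _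
    rw [Finset.sum_const, Finset.card_univ, Fintype.card_fin, nsmul_eq_mul, hM']
  refine ⟨_, fun l => (e l).1.1, fun l => (e l).1.2, s * (∑ i, n i + 2), fun l => ?_, ?_, fun x => ?_⟩
  · refine hpos _ ?_
    have := (e l).2.pos
    omega
  · have h1 := hsum (fun _ => 1)
    simp only [Finset.sum_const, Finset.card_univ, Fintype.card_fin, nsmul_eq_mul, mul_one,
      Finset.sum_add_distrib, hs] at h1
    rw [h1]
    exact ⟨s, by ring⟩
  · have h1 := hsum (fun p => if hammingDist p.1 x ≤ 1 then 1 else 0)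
    have h2 := hsum (fun p => if p.1 - p.2 = x then 1 else 0)
    have h3 : (wt (fun l => (e l).1.1) (fun l => (e l).1.2) x : ℤ) =
        ∑ l, (if hammingDist (e l).1.1 x ≤ 1 then (1 : ℤ) else 0) +
          ∑ l, (if (e l).1.1 - (e l).1.2 = x then (1 : ℤ) else 0) := by
      unfold wt
      rw [Finset.sum_boole, Finset.sum_boole]
      push_cast
      rfl
    have h4 : ∑ c : Cell n, ∑ γ : Cell n, (M c γ + if γ ∈ S then (k : ℤ) else 0) *
        (if hammingDist c x ≤ 1 then (1 : ℤ) else 0) =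
        ∑ c, ∑ γ, (if hammingDist c x ≤ 1 then M c γ else 0) + s * (∑ i, (n i : ℤ) + 1) := by
      have h5 : ∀ c : Cell n, ∑ γ : Cell n, (M c γ + if γ ∈ S then (k : ℤ) else 0) *
          (if hammingDist c x ≤ 1 then (1 : ℤ) else 0) =
          ∑ γ, (if hammingDist c x ≤ 1 then M c γ else 0) +
            s * (if hammingDist c x ≤ 1 then (1 : ℤ) else 0) := by
        intro c
        rw [← hs, Finset.sum_mul, ← Finset.sum_add_distrib]
        refine Finset.sum_congr rfl fun γ _ => ?_
        split_ifs <;> ring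
      rw [Finset.sum_congr rfl fun c _ => h5 c, Finset.sum_add_distrib, ← Finset.mul_sum,
        Finset.sum_boole]
      have h6 : (Finset.univ.filter fun c : Cell n => hammingDist c x ≤ 1) =
          Finset.univ.filter fun y : Cell n => hammingDist x y ≤ 1 := by
        refine Finset.filter_congr fun c _ => ?_
        rw [hammingDist_comm]
      rw [h6, hnb x]
      push_cast
      rfl
    have h7 : ∑ c : Cell n, ∑ γ : Cell n, (M c γ + if γ ∈ S then (k : ℤ) else 0) *
        (if c - γ = x then (1 : ℤ) else 0) = ∑ γ, M (x + γ) γ + s := by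
      rw [Finset.sum_comm, ← hs, ← Finset.sum_add_distrib]
      refine Finset.sum_congr rfl fun γ _ => ?_
      rw [Finset.sum_eq_single (x + γ)]
      · have e1 : (if x + γ - γ = x then (1 : ℤ) else 0) = 1 := if_pos (by abel)
        rw [e1, mul_one]
      · intro c _ hc
        have e1 : (if c - γ = x then (1 : ℤ) else 0) = 0 := by
          refine if_neg fun h => hc ?_
          rw [← h]
          abel
        rw [e1, mul_zero]
      · intro h
        exact absurd (Finset.mem_univ _) h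
    rw [h3]
    erw [h1, h2]
    rw [h4, h7]
    push_cast
    ring

end Pool.Agent.SV
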